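import Pool.Graph.R_pool_sql_team_seeded_3997aac3.Q130.TR.Sep
import Pool.Agent.H64.XS.Stm

set_option autoImplicit false

/-! Project XS, MIN: the space of a normal extension can be taken separable. -/

namespace Pool.Agent.H94.XS

open Set Filter Topology
open Pool.Agent.H64.XS Pool.Agent.H50.SM
open Pool.Agent.Q130.TR (exists_sep)
open Pool.Agent.W706.HIR (adj_restrict)
open ContinuousLinearMap (adjoint)

theorem min : S_MIN := by
  intro H L _ _ _ _ _ _ _ A N V hN hV hNV
  obtain ⟨e, he⟩ := TopologicalSpace.exists_dense_seq H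
  obtain ⟨M, hM, hsep, h1, h2, hu, _⟩ := exists_sep N (fun j => V (e j)) (fun j => V (e j))
  have hcs : CompleteSpace M := hM.completeSpace_coe
  have hVM : ∀ x, V x ∈ M := by
    intro x
    have h3 : x ∈ closure (Set.range e) := he x
    have h4 : V x ∈ closure (M : Set L) := by
      refine map_mem_closure V.continuous h3 ?_
      rintro _ ⟨j, rfl⟩
      exact hu j
    rwa [hM.closure_eq] at h4
  have hNN : ∀ x, adjoint N (N x) = N (adjoint N x) := fun x => by
    have := hN.star_comm_self
    rw [ContinuousLinearMap.star_eq_adjoint] at this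
    exact congrArg (fun L : L →L[ℂ] L => L x) this.eq
  set N' : M →L[ℂ] M := N.restrict h1 with hN'
  have hN's : IsStarNormal N' := by
    constructor
    rw [Commute, SemiconjBy, ContinuousLinearMap.star_eq_adjoint, hN', adj_restrict h1 h2]
    ext x
    exact hNN x
  exact ⟨M, hcs, hsep, N', V.codRestrict M hVM, hN's, fun x => hV x,
    fun x => Subtype.ext (hNV x)⟩

end Pool.Agent.H94.XS
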