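import Pool.Agent.H64.XS.Stm

set_option autoImplicit false

/-! Project XS, SEPN: operators on Hilbert spaces which are not separable. -/

namespace Pool.Agent.H94.XS

open Pool.Agent.H64.XS Pool.Agent.H50.SM

theorem sepn : S_SEPN := by
  intro H _ _ _ hsep T
  obtain ⟨x, hx⟩ : ∃ x : H, x ≠ 0 := by
    by_contra h
    push Not at h
    apply hsep
    haveI : Subsingleton H := ⟨fun a b => by rw [h a, h b]⟩
    infer_instance
  set W : Submodule ℂ H := Submodule.span ℂ (Set.range fun k : ℕ => (T ^ k) x) with hW
  refine ⟨W.topologicalClosure, W.isClosed_topologicalClosure, ?_, fun y _ => rfl, ?_, ?_⟩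
  · intro h
    have h1 : x ∈ W.topologicalClosure := by
      apply W.le_topologicalClosure
      apply Submodule.subset_span
      exact ⟨0, by simp⟩
    rw [h, Submodule.mem_bot] at h1
    exact hx h1
  · by_contra h
    push Not at h
    apply hsep
    have h1 : TopologicalSpace.IsSeparable (W.topologicalClosure : Set H) := by
      rw [Submodule.topologicalClosure_coe]
      apply TopologicalSpace.IsSeparable.closure
      exact (Set.countable_range _).isSeparable.span
    have h2 : (W.topologicalClosure : Set H) = Set.univ := by
      ext y
      simp only [SetLike.mem_coe, Set.mem_univ, iff_true]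
      exact h y rfl
    rw [h2] at h1
    exact TopologicalSpace.isSeparable_univ_iff.1 h1
  · intro y hy
    have h1 : ∀ z ∈ W, T z ∈ W := by
      intro z hz
      have h2 : W ≤ W.comap (T : H →ₗ[ℂ] H) := by
        rw [hW, Submodule.span_le]
        rintro _ ⟨k, rfl⟩
        simp only [Submodule.comap_coe, Set.mem_preimage, SetLike.mem_coe]
        apply Submodule.subset_span
        refine ⟨k + 1, ?_⟩
        simp only [pow_succ']
        rfl
      exact h2 hz
    rw [← SetLike.mem_coe, Submodule.topologicalClosure_coe] at hy ⊢
    exact map_mem_closure T.continuous hy h1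

end Pool.Agent.H94.XS
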