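import Pool.Agent.H64.XS.Stm

set_option autoImplicit false

/-! Project XS, TWO: two points. -/

namespace Pool.Agent.H94.XS

open MeasureTheory Set Metric Filter Topology
open scoped InnerProductSpace ComplexConjugate
open Pool.Agent.H64.XS Pool.Agent.H50.SM
open ContinuousLinearMap (adjoint)

/-- a set which is not a null set has two points at which it is locally not null -/
theorem two_points (Z : Set ℂ) (hZ : volume Z ≠ 0) : ∃ a b : ℂ, a ≠ b ∧
    (∀ r : ℝ, 0 < r → volume (Z ∩ ball a r) ≠ 0) ∧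
    ∀ r : ℝ, 0 < r → volume (Z ∩ ball b r) ≠ 0 := by
  set D : Set ℂ := {z | z ∈ Z ∧ ∀ r : ℝ, 0 < r → volume (Z ∩ ball z r) ≠ 0} with hD
  have h1 : volume (Z \ D) = 0 := by
    apply measure_null_of_locally_null
    intro x hx
    have h2 : ¬ ∀ r : ℝ, 0 < r → volume (Z ∩ ball x r) ≠ 0 := fun h => hx.2 ⟨hx.1, h⟩
    push Not at h2
    obtain ⟨r, hr, h3⟩ := h2
    refine ⟨(Z \ D) ∩ ball x r, ?_, ?_⟩
    · exact inter_mem_nhdsWithin _ (ball_mem_nhds x hr)
    · exact measure_mono_null (inter_subset_inter_left _ diff_subset) h3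
  have h2 : volume D ≠ 0 := by
    intro h
    apply hZ
    have h3 : Z ⊆ (Z \ D) ∪ D := fun x hx => by
      by_cases hxD : x ∈ D
      · exact Or.inr hxD
      · exact Or.inl ⟨hx, hxD⟩
    exact measure_mono_null h3 (measure_union_null h1 h)
  have h3 : ¬ D.Subsingleton := fun h => h2 (h.measure_zero volume)
  rw [Set.not_subsingleton_iff] at h3
  obtain ⟨a, ha, b, hb, hab⟩ := h3
  exact ⟨a, b, hab, ha.2, hb.2⟩

theorem two (cha : S_CHA) (chb : S_CHB) (ort : S_ORT) : S_TWO := by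
  intro S _ μ _ φ N K u v J H _ _ _ V B hd
  by_cases hZ : volume {z : ℂ | ¬ Ok φ u v J z} = 0
  · right
    rw [ae_iff]
    exact hZ
  · left
    obtain ⟨a, b, hab, ha, hb⟩ := two_points _ hZ
    have hr : 0 < ‖a - b‖ / 3 := by
      have : 0 < ‖a - b‖ := norm_pos_iff.2 (sub_ne_zero.2 hab)
      positivity
    have key : ∀ c : ℂ, (∀ r : ℝ, 0 < r → volume ({z : ℂ | ¬ Ok φ u v J z} ∩ ball c r) ≠ 0) →
        ¬ ∀ᵐ z : ℂ, z ∈ ball c (‖a - b‖ / 3) → Ok φ u v J z := by
      intro c hc h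
      apply hc _ hr
      rw [ae_iff] at h
      refine measure_mono_null ?_ h
      rintro z ⟨h1, h2⟩
      simp only [mem_setOf_eq] at h1 ⊢
      exact fun h3 => h1 (h3 h2)
    have h1 := cha S μ φ N K u v J H V B hd a _ hr (key a ha)
    have h2 := chb S μ φ N K u v J H V B hd b _ hr (key b hb)
    have h3 : adjoint (1 : H →L[ℂ] H) = 1 := by
      rw [← ContinuousLinearMap.star_eq_adjoint, star_one]
    refine ort H B 1 (one_mul 1) (by rw [one_mul, mul_one]) a b _ hr ?_ h1 (by rw [h3]; exact h2)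
    have : 0 < ‖a - b‖ := norm_pos_iff.2 (sub_ne_zero.2 hab)
    linarith

end Pool.Agent.H94.XS
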